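import Pool.Agent.Lib.MP_e46711_an.H82.Main

/-!
# MP_e46711_an, Q1: the interval `(μ₁, μ₂)` can contain parameters without non-constant solutions

`Ω` is a bounded smooth domain of the plane with `|Ω| = 1` and `p = 1/8`.  For this pair
`μ₁ < μ₂`, and there is `lam ∈ (μ₁, μ₂)` for which every positive solution of (E) is constant.
Solutions are weak solutions in `H¹(Ω)` which are positive almost everywhere; below `lam` there is
even a non-constant solution which is bounded below by a positive constant.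
-/

open Set Filter Topology MeasureTheory
open scoped ContDiff

namespace Pool.Agent.Results.MP_e46711_an.NeumannGap

variable {d : ℕ}

/-- `Ω` has smooth boundary: near every boundary point `Ω` is the sublevel set `{g < 0}` of a
smooth function `g` with nonzero differential. -/
def SmoothBoundary (Ω : Set (EuclideanSpace ℝ (Fin d))) : Prop :=
  ∀ x ∈ frontier Ω, ∃ (N : Set (EuclideanSpace ℝ (Fin d))) (g : EuclideanSpace ℝ (Fin d) → ℝ),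
    IsOpen N ∧ x ∈ N ∧ ContDiffOn ℝ ∞ g N ∧ fderiv ℝ g x ≠ 0 ∧ Ω ∩ N = {z ∈ N | g z < 0}

/-- `u ∈ H¹(Ω)` with weak gradient `G`: limit, in the norm of `H¹(Ω)`, of restrictions of
`C¹` functions on `ℝᵈ` (for bounded smooth domains this is the usual Sobolev space). -/
def InH1 (Ω : Set (EuclideanSpace ℝ (Fin d))) (u : EuclideanSpace ℝ (Fin d) → ℝ)
    (G : EuclideanSpace ℝ (Fin d) → EuclideanSpace ℝ (Fin d)) : Prop :=
  MemLp u 2 (volume.restrict Ω) ∧ MemLp G 2 (volume.restrict Ω) ∧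
  ∃ φ : ℕ → EuclideanSpace ℝ (Fin d) → ℝ, (∀ n, ContDiff ℝ 1 (φ n)) ∧
    Tendsto (fun n => ∫ x in Ω, ((φ n x - u x) ^ 2 + ‖gradient (φ n) x - G x‖ ^ 2)) atTop (𝓝 0)

/-- weak positive solutions of (E): `-ε(p) Δu + lam u - u ^ p = 0` in `Ω`, `∂ₙ u = 0` on `∂Ω`,
`ε(p) = (p - 1) / |p - 1|`. -/
def IsPosSol (Ω : Set (EuclideanSpace ℝ (Fin d))) (p lam : ℝ)
    (u : EuclideanSpace ℝ (Fin d) → ℝ) : Prop :=
  (∀ᵐ x ∂(volume.restrict Ω), 0 < u x) ∧ ∃ G, InH1 Ω u G ∧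
    ∀ φ : EuclideanSpace ℝ (Fin d) → ℝ, ContDiff ℝ 1 φ →
      (p - 1) / |p - 1| * (∫ x in Ω, inner ℝ (G x) (gradient φ x)) + lam * (∫ x in Ω, u x * φ x)
        - ∫ x in Ω, u x ^ p * φ x = 0

/-- `u` is constant on `Ω` (almost everywhere) -/
def IsConst (Ω : Set (EuclideanSpace ℝ (Fin d))) (u : EuclideanSpace ℝ (Fin d) → ℝ) : Prop :=
  ∃ k : ℝ, ∀ᵐ x ∂(volume.restrict Ω), u x = k

/-- the parameters with a non-constant positive solution -/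
def NonConstSet (Ω : Set (EuclideanSpace ℝ (Fin d))) (p : ℝ) : Set ℝ :=
  {lam | 0 < lam ∧ ∃ u, IsPosSol Ω p lam u ∧ ¬ IsConst Ω u}

/-- the admissible constants of the interpolation inequality
`‖∇u‖₂² ≥ Λ / (p - 1) * (‖u‖²_{p+1} - ‖u‖₂²)` -/
def InterpSet (Ω : Set (EuclideanSpace ℝ (Fin d))) (p : ℝ) : Set ℝ :=
  {Λ | ∀ u G, InH1 Ω u G →
    Λ / (p - 1) * ((∫ x in Ω, |u x| ^ (p + 1)) ^ (2 / (p + 1)) - ∫ x in Ω, u x ^ 2)
      ≤ ∫ x in Ω, ‖G x‖ ^ 2}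

/-- `μ₁` -/
noncomputable def mu1 (Ω : Set (EuclideanSpace ℝ (Fin d))) (p : ℝ) : ℝ := sInf (NonConstSet Ω p)

/-- `Λ⋆` -/
noncomputable def LambdaStar (Ω : Set (EuclideanSpace ℝ (Fin d))) (p : ℝ) : ℝ :=
  sSup (InterpSet Ω p)

/-- `μ₂ = Λ⋆ / |p - 1|` -/
noncomputable def mu2 (Ω : Set (EuclideanSpace ℝ (Fin d))) (p : ℝ) : ℝ :=
  LambdaStar Ω p / |p - 1|

/-- Negative answer to Q1 (positive solutions), with `p = 1 / 8` and a planar domain. -/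
theorem result :
    ∃ Ω : Set (EuclideanSpace ℝ (Fin 2)),
      (IsOpen Ω ∧ Bornology.IsBounded Ω ∧ IsConnected Ω ∧ SmoothBoundary Ω ∧ volume Ω = 1) ∧
      (NonConstSet Ω (1 / 8)).Nonempty ∧ BddAbove (InterpSet Ω (1 / 8)) ∧
      ∃ lam : ℝ, mu1 Ω (1 / 8) < lam ∧ lam < mu2 Ω (1 / 8) ∧
        (∀ u, IsPosSol Ω (1 / 8) lam u → IsConst Ω u) ∧
        ∃ l u c, 0 < l ∧ l < lam ∧ 0 < c ∧ IsPosSol Ω (1 / 8) l u ∧ ¬ IsConst Ω u ∧
          ∀ᵐ x ∂(volume.restrict Ω), c ≤ u x := by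
  obtain ⟨Ω, hΩ, μ₁, μ₂, lam, h1, h2, h3, h4, ⟨l, u, hl0, hl1, hu, huc, c, hc, hcu⟩, h5⟩ :=
    Pool.Agent.Lib.MP_e46711_an.H82.mainStrong
  have e1 : ∀ u G, InH1 Ω u G ↔ Pool.Agent.Lib.MP_e46711_an.InH1 Ω u G := fun u G =>
    ⟨fun hh => ⟨hh.1, hh.2.1, hh.2.2⟩, fun hh => ⟨hh.mu, hh.mG, hh.approx⟩⟩
  have e2 : ∀ l u, IsPosSol Ω (1 / 8) l u ↔ Pool.Agent.Lib.MP_e46711_an.PosSol Ω (1 / 8) l u := by
    intro l u
    simp only [IsPosSol, Pool.Agent.Lib.MP_e46711_an.PosSol, e1]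
  have e3 : NonConstSet Ω (1 / 8) = Pool.Agent.Lib.MP_e46711_an.Sol1 Ω (1 / 8) := by
    ext l
    simp only [NonConstSet, Pool.Agent.Lib.MP_e46711_an.Sol1, mem_ofPred_eq, e2]
    rfl
  have e4 : InterpSet Ω (1 / 8) = Pool.Agent.Lib.MP_e46711_an.LamSet Ω (1 / 8) := by
    ext l
    simp only [InterpSet, Pool.Agent.Lib.MP_e46711_an.LamSet, mem_ofPred_eq, e1]
  rw [← e3] at h1
  rw [← e4] at h2
  have m1 : mu1 Ω (1 / 8) = μ₁ := h1.csInf_eq h1.nonempty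
  have m2 : mu2 Ω (1 / 8) = μ₂ := by
    rw [mu2, LambdaStar, h2.csSup_eq h2.nonempty]
    norm_num
  exact ⟨Ω, ⟨hΩ.isOpen, hΩ.bounded, hΩ.conn, hΩ.smooth, hΩ.vol⟩, h1.nonempty, h2.bddAbove, lam,
    by rw [m1]; exact h3, by rw [m2]; exact h4, fun u hu => h5 u ((e2 _ _).1 hu),
    l, u, c, hl0, hl1, hc, (e2 _ _).2 hu, huc, hcu⟩

end Pool.Agent.Results.MP_e46711_an.NeumannGap
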